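import Mathlib
import Pool.Agent.H2.BarnesMain

set_option autoImplicit false

open Filter Topology Set MeasureTheory Asymptotics

namespace Pool.Agent.Results.MP_047497_nt.NotMomentBound

/-- `Z` is the Barnes multiple zeta-function: holomorphic off `1, ..., r` and the sum of the
defining series for `Re s > r`. -/
def IsBarnesZeta (r : ℕ) (a : ℝ) (w : Fin r → ℝ) (Z : ℂ → ℂ) : Prop :=
  DifferentiableOn ℂ Z {s : ℂ | ∀ j : ℕ, 1 ≤ j → j ≤ r → s ≠ (j : ℂ)} ∧
    ∀ s : ℂ, (r : ℝ) < s.re →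
      HasSum (fun m : Fin r → ℕ => ((a + ∑ i, (m i : ℝ) * w i : ℝ) : ℂ) ^ (-s)) (Z s)

theorem result : ¬ ∀ (r : ℕ) (a : ℝ) (w : Fin r → ℝ) (Z : ℂ → ℂ),
    1 ≤ r → 0 < a → (∀ i, 0 < w i) → IsBarnesZeta r a w Z →
    ∀ k : ℕ, 1 ≤ k → ∀ ε : ℝ, 0 < ε → ∀ σ : ℝ,
      (r : ℝ) - (Module.finrank ℚ (Submodule.span ℚ (Set.range w)) : ℝ) / 2 ≤ σ →
      (fun T : ℝ => ∫ t in (1 : ℝ)..T, ‖Z (σ + t * Complex.I)‖ ^ (2 * k)) =O[atTop]
        fun T : ℝ => T ^ (1 + ε) := by
  intro H
  set α : ℝ := liouvilleNumber 2 with hαdef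
  have hL : Liouville α := by
    have := liouville_liouvilleNumber (m := 2) le_rfl
    simpa using this
  have hα : 0 < α := by
    have h0 : 0 ≤ α := tsum_nonneg fun i => by positivity
    exact lt_of_le_of_ne h0 (fun h => hL.irrational.ne_zero h.symm)
  obtain ⟨c, hc⟩ := Pool.Agent.H2.Barnes.exists_coeffs hα
  have hc : Pool.Agent.H2.Barnes.GoodCoeffs α c := hc
  have hli : LinearIndependent ℚ ![(1:ℝ), α] := by
    rw [LinearIndependent.pair_iff]
    intro s t hst
    by_cases ht : t = 0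
    · subst ht
      simpa using hst
    · exfalso
      apply hL.irrational
      refine ⟨-s / t, ?_⟩
      have ht' : (t:ℝ) ≠ 0 := by exact_mod_cast ht
      simp only [Rat.smul_def, mul_one] at hst
      push_cast
      field_simp
      linarith
  have hd : Module.finrank ℚ (Submodule.span ℚ (Set.range ![(1:ℝ), α])) = 2 := by
    rw [finrank_span_eq_card hli]; simp
  have hB : IsBarnesZeta 2 1 ![(1:ℝ), α] (Pool.Agent.H2.Barnes.Zfun α c) := by
    refine ⟨fun s hs => (Pool.Agent.H2.Barnes.Zfun_diff hα hc ?_ ?_).differentiableWithinAt,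
      fun s hs => ?_⟩
    · simpa using hs 1 le_rfl one_le_two
    · simpa using hs 2 one_le_two le_rfl
    · have h := Pool.Agent.H2.Barnes.hasSum_Zfun hα hc (s := s) (by simpa using hs)
      rw [← (finTwoArrowEquiv ℕ).hasSum_iff] at h
      refine h.congr_fun fun m => ?_
      simp [add_assoc]
  have h := H 2 1 ![(1:ℝ), α] _ one_le_two one_pos
    (fun i => by fin_cases i <;> simp [hα]) hB 1 le_rfl (1/4) (by norm_num) 1
    (by rw [hd]; norm_num)
  apply Pool.Agent.H2.Barnes.not_bigO hα hL hc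
  have e : (1 + 1/4 : ℝ) = 5/4 := by norm_num
  rw [e] at h
  simpa using h

end Pool.Agent.Results.MP_047497_nt.NotMomentBound
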